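import Pool.Agent.Helper32.AG.Goals

set_option autoImplicit false

namespace Pool.Agent.Helper42.AG3

open Pool.Agent.Helper32.AG

universe u

theorem num7 (m b kk n : ℕ) (hm : 1 ≤ m) (hb : b ≤ 1 + n * m) (h : 2 * m ^ 2 ≤ 3 ^ kk) :
    3 * (m * b) ≤ 3 ^ (kk + n) := by
  rw [pow_add]
  have hkk : 3 ≤ 3 ^ kk := by
    rcases Nat.eq_zero_or_pos kk with h0 | h0
    · rw [h0, pow_zero] at h
      have : 1 ≤ m ^ 2 := Nat.one_le_pow _ _ hm
      omega
    · calc 3 = 3 ^ 1 := by norm_num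
        _ ≤ 3 ^ kk := Nat.pow_le_pow_right (by norm_num) h0
  have hn : n + 1 ≤ 3 ^ n := by
    have : n < 3 ^ n := Nat.lt_pow_self (by norm_num)
    omega
  rcases Nat.lt_or_ge m 2 with h1 | h1
  · have hm1 : m = 1 := by omega
    subst hm1
    have hb' : b ≤ n + 1 := by omega
    calc 3 * (1 * b) ≤ 3 * (n + 1) := by omega
      _ ≤ 3 ^ kk * 3 ^ n := Nat.mul_le_mul hkk hn
  · rcases Nat.eq_zero_or_pos n with h0 | h0
    · subst h0
      have hb' : b ≤ 1 := by omega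
      have h3 : 3 * m ≤ 2 * m ^ 2 := by nlinarith
      calc 3 * (m * b) ≤ 3 * (m * 1) := by gcongr
        _ = 3 * m := by ring
        _ ≤ 3 ^ kk * 3 ^ 0 := by rw [pow_zero, mul_one]; omega
    · have hn3 : 3 * n ≤ 3 ^ n := by
        obtain ⟨j, rfl⟩ := Nat.exists_eq_add_of_le' h0
        have : j < 3 ^ j := Nat.lt_pow_self (by norm_num)
        rw [pow_succ]
        omega
      have h4 : 3 * (1 + n * m) ≤ 2 * m * 3 ^ n := by
        have h5 : 2 * m * (3 * n) ≤ 2 * m * 3 ^ n := Nat.mul_le_mul_left _ hn3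
        have h6 : 1 ≤ n * m := Nat.mul_pos h0 (by omega)
        nlinarith
      calc 3 * (m * b) ≤ 3 * (m * (1 + n * m)) := by gcongr
        _ = m * (3 * (1 + n * m)) := by ring
        _ ≤ m * (2 * m * 3 ^ n) := Nat.mul_le_mul_left _ h4
        _ = 2 * m ^ 2 * 3 ^ n := by ring
        _ ≤ 3 ^ kk * 3 ^ n := Nat.mul_le_mul_right _ h

/-- abelian-by-nilpotent groups -/
theorem baseAN (hGrp : GrpStmt.{u})
    (hNil : ∀ (P : Type u) [Group P] [Finite P], Group.IsNilpotent P →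
      2 * Nat.card P ^ 2 ≤ 3 ^ k P)
    (G : Type u) [Group G] [Finite G] (M : Subgroup G) [M.Normal]
    (hM : ∀ x ∈ M, ∀ y ∈ M, x * y = y * x) (hq : Group.IsNilpotent (G ⧸ M)) :
    3 * Nat.card G ≤ 3 ^ k G := by
  have h1 := hGrp.1 G M hM
  have h2 := hNil (G ⧸ M) hq
  have h3 : Nat.card (G ⧸ M) = M.index := rfl
  rw [h3] at h2
  have h4 : M.index * Nat.card M = Nat.card G := Subgroup.index_mul_card _
  have h5 : 1 ≤ M.index := Nat.one_le_iff_ne_zero.2 Subgroup.index_ne_zero_of_finite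
  have h6 : 1 ≤ Nat.card M := Nat.card_pos
  have h7 : k (G ⧸ M) ≤ k G := by
    by_contra hcon
    have h8 : k G + 1 ≤ k (G ⧸ M) := by omega
    have h9 : M.index * (k G + 1) ≤ M.index * k (G ⧸ M) := Nat.mul_le_mul_left _ h8
    rw [mul_add] at h9
    omega
  obtain ⟨n, hn⟩ := Nat.exists_eq_add_of_le h7
  rw [hn, mul_add] at h1
  have h10 : Nat.card M ≤ 1 + n * M.index := by
    rw [mul_comm n]
    omega
  have := num7 M.index (Nat.card M) (k (G ⧸ M)) n h5 h10 h2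
  rw [h4, ← hn] at this
  exact this

end Pool.Agent.Helper42.AG3
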