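import Pool.Agent.Helper13.AG3.Goals
import Pool.Agent.Helper42.AG2.BASE
import Pool.Agent.Helper42.AG3.BaseAN

set_option autoImplicit false

namespace Pool.Agent.Helper42.AG3

open Pool.Agent.Helper32.AG

universe u

theorem base (hGrp : GrpStmt.{u}) (hNil : Pool.Agent.Helper13.AG3.NilStmt.{u}) :
    Pool.Agent.Helper13.AG3.BaseStmt.{u} := by
  intro G _ _ hG
  rcases hG with hs | ⟨Q, _, g, hQ, hg⟩
  · exact Pool.Agent.Helper42.AG2.base hGrp G (Or.inl hs)
  · refine baseAN hGrp hNil G g.ker hg ?_
    have h1 : Group.IsNilpotent g.range := inferInstance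
    exact Group.nilpotent_of_mulEquiv (QuotientGroup.quotientKerEquivRange g).symm

end Pool.Agent.Helper42.AG3
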